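import Pool.Agent.H98.RFT.Targets3
import Pool.Agent.H10.RFZ.RNG
import Pool.Agent.H65.RFZ.QPAR

/-!
# Four crossed long tubes make a shield of bounded size (row RNG of the board `rft_modules`)

Modified from the proof of helper10 (`Pool/Agent/H10/RFZ/RNG.lean`).
-/

set_option autoImplicit false

namespace Pool.Agent.H82.RFT

open Pool.Agent.H98.RFC Pool.Agent.H98.RFZ Pool.Agent.H98.RFT Pool.Agent.H10.RFZ

theorem mem_box (L : ℕ) (x : Site) : x ∈ box L ↔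
    (-(L : ℤ) ≤ x.1 ∧ x.1 ≤ L) ∧ (-(L : ℤ) ≤ x.2 ∧ x.2 ≤ L) := by
  unfold box
  rw [Finset.mem_product, Finset.mem_Icc, Finset.mem_Icc]

/-- the ends of the tubes are outside the box -/
theorem ends (v z x : Site) (n M u : ℕ) (hM : 600 + 40 * (n : ℝ) ≤ M) (hv : InVM M v)
    (hu : 100 ≤ u) (hz : z ∈ box (n * u))
    (h : (|((x.1 : ℝ) - z.1) + u * v.1 / 2| ≤ 23 * u ∧
      |((x.2 : ℝ) - z.2) + u * v.2 / 2| ≤ 23 * u) ∨ (|((x.1 : ℝ) - z.1) - u * v.1 / 2| ≤ 23 * u ∧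
      |((x.2 : ℝ) - z.2) - u * v.2 / 2| ≤ 23 * u)) : x ∉ box (8 * (n * u)) := by
  intro hx
  rw [mem_box] at hx hz
  obtain ⟨⟨a1, a2⟩, a3, a4⟩ := hx
  obtain ⟨⟨b1, b2⟩, b3, b4⟩ := hz
  have a1' : -(8 * ((n : ℝ) * u)) ≤ x.1 := by exact_mod_cast a1
  have a2' : (x.1 : ℝ) ≤ 8 * (n * u) := by exact_mod_cast a2
  have a3' : -(8 * ((n : ℝ) * u)) ≤ x.2 := by exact_mod_cast a3
  have a4' : (x.2 : ℝ) ≤ 8 * (n * u) := by exact_mod_cast a4
  have b1' : -((n : ℝ) * u) ≤ z.1 := by exact_mod_cast b1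
  have b2' : (z.1 : ℝ) ≤ n * u := by exact_mod_cast b2
  have b3' : -((n : ℝ) * u) ≤ z.2 := by exact_mod_cast b3
  have b4' : (z.2 : ℝ) ≤ n * u := by exact_mod_cast b4
  clear a1 a2 a3 a4 b1 b2 b3 b4
  have hu' : (100 : ℝ) ≤ u := by exact_mod_cast hu
  have hn0 : (0 : ℝ) ≤ n := Nat.cast_nonneg n
  have hM2 : (2 : ℝ) ≤ M := by linarith
  obtain ⟨hL, -⟩ := invm M v (by exact_mod_cast hM2) hv
  have hq := nrm_sq v
  rw [nsq_cast] at hq
  have key : |(u : ℝ) * v.1| ≤ u * (18 * n + 46) ∧ |(u : ℝ) * v.2| ≤ u * (18 * n + 46) := by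
    rcases h with ⟨h1, h2⟩ | ⟨h1, h2⟩
    · rw [abs_le] at h1 h2
      constructor <;> rw [abs_le] <;> constructor <;> linarith [h1.1, h1.2, h2.1, h2.2]
    · rw [abs_le] at h1 h2
      constructor <;> rw [abs_le] <;> constructor <;> linarith [h1.1, h1.2, h2.1, h2.2]
  have hup : (0 : ℝ) < u := by linarith
  rw [abs_mul, abs_mul, abs_of_pos hup] at key
  have k1 := le_of_mul_le_mul_left key.1 hup
  have k2 := le_of_mul_le_mul_left key.2 hup
  have k3 := pow_le_pow_left₀ (abs_nonneg _) k1 2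
  have k4 := pow_le_pow_left₀ (abs_nonneg _) k2 2
  rw [sq_abs] at k3 k4
  have k5 : (40 * (n : ℝ) + 598) ^ 2 ≤ nrm v ^ 2 :=
    pow_le_pow_left₀ (by linarith) (by linarith) 2
  rw [hq] at k5
  have k6 : (40 * (n : ℝ) + 598) ^ 2 ≤ 2 * (18 * n + 46) ^ 2 := by linarith
  nlinarith [k6, hn0, mul_nonneg hn0 hn0]

/-- Row RNG. -/
theorem pf_RNG : R_RNG := by
  intro φ hφ hφ1
  have hPAR : Q_PAR := Pool.Agent.H65.RFZ.QPAR.pf_QPAR
  refine ⟨⌈69 / φ⌉₊ + 12, ⌈400 / φ + 200⌉₊ + 200, by omega,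
    fun n M hM v1 v2 h1 h2 hdet u hu z hz => ?_⟩
  have hM0 : 400 / φ + 200 + 200 + 40 * (n : ℝ) ≤ M := by
    have e1 : (400 / φ + 200 : ℝ) ≤ (⌈400 / φ + 200⌉₊ : ℝ) := Nat.le_ceil _
    have e2 : ((⌈400 / φ + 200⌉₊ + 200 + 40 * n : ℕ) : ℝ) ≤ M := by exact_mod_cast hM
    push_cast at e2
    linarith
  have hn0 : (0 : ℝ) ≤ n := Nat.cast_nonneg n
  have hM' : 400 / φ + 200 ≤ M := by linarith
  have hφ' : 400 ≤ 400 / φ := by
    rw [le_div_iff₀ hφ]
    linarith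
  have hu' : (100 : ℝ) ≤ u := by exact_mod_cast hu
  have hM2 : (2 : ℝ) ≤ M := by linarith
  obtain ⟨hL1, hU1⟩ := invm M v1 (by exact_mod_cast hM2) h1
  obtain ⟨hL2, hU2⟩ := invm M v2 (by exact_mod_cast hM2) h2
  have hp1 : 0 < nrm v1 := by linarith
  have hp2 : 0 < nrm v2 := by linarith
  obtain ⟨a, s, has, hcov⟩ : ∃ (a : Fin 4 → Site) (s : Fin 4 → ℤ),
      (∀ i, (a i = v1 ∨ a i = v2) ∧ (s i = 1 ∨ s i = -1)) ∧
      ∀ (v : Site) (t : ℤ), (v = v1 ∨ v = v2) → (t = 1 ∨ t = -1) → ∃ i, a i = v ∧ s i = t := by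
    refine ⟨![v1, v1, v2, v2], ![1, -1, 1, -1], ?_, ?_⟩
    · intro i
      fin_cases i <;> simp
    · rintro v t (rfl | rfl) (rfl | rfl)
      · exact ⟨0, by simp⟩
      · exact ⟨1, by simp⟩
      · exact ⟨2, by simp⟩
      · exact ⟨3, by simp⟩
  have hprop : ∀ i, 0 < nrm (a i) ∧ nrm (a i) ≤ M + 2 ∧ InVM M (a i) := by
    intro i
    rcases (has i).1 with h | h <;> rw [h]
    · exact ⟨hp1, hU1, h1⟩
    · exact ⟨hp2, hU2, h2⟩
  have hst : ∀ i, ∃ y, St (a i) z u (s i) y := fun i => st_ex (a i) z (hprop i).1 u (s i)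
  choose y hy using hst
  -- the ball contains the parallelogram
  have hball : ∀ x : Site, nrm (x - z) ≤ 69 * u / φ → x ∈ eb z ((⌈69 / φ⌉₊ + 12) * u) := by
    intro x hx
    rw [mem_eb]
    push_cast
    have e1 : (69 / φ : ℝ) ≤ (⌈69 / φ⌉₊ : ℝ) := Nat.le_ceil _
    have e2 : (69 : ℝ) * u / φ = 69 / φ * u := by ring
    rw [e2] at hx
    refine hx.trans (mul_le_mul_of_nonneg_right (by linarith) (by linarith))
  refine ⟨y, a, fun i => (has i).1, ?_, ?_, ?_⟩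
  · intro i x hx
    obtain ⟨-, -, h⟩ := tube_pt (a i) z (y i) x u hu (s i) (has i).2 (hy i) hx
    rw [mem_eb]
    push_cast
    have h3 : (u : ℝ) * nrm (a i) ≤ u * (M + 2) :=
      mul_le_mul_of_nonneg_left (hprop i).2.1 (by linarith)
    have h4 : 0 ≤ (M : ℝ) * u := by positivity
    linarith
  · intro i x hx
    obtain ⟨t1, t2⟩ := tube_end (a i) z (y i) x u hu (s i) (has i).2 (hy i)
    exact ends (a i) z x n M u (by linarith) (hprop i).2.2 hu hz (hx.imp t1 t2)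
  · intro D hD l w hw hw0 hwl
    have hL0 : ∀ v : Site, 0 ≤ nrm v := nrm_nonneg
    have hup : 0 ≤ (u : ℝ) / φ := by positivity
    have hle : 68 * (u : ℝ) / φ ≤ 69 * u / φ := by
      have e1 : 69 * (u : ℝ) / φ = 68 * u / φ + u / φ := by ring
      linarith
    have hex : ∃ j, ¬ (|(fdet v1 (w j - z) : ℝ)| ≤ 24 * u * nrm v1 ∧
        |(fdet v2 (w j - z) : ℝ)| ≤ 24 * u * nrm v2) := by
      refine ⟨l, fun h => hwl ?_⟩
      have h3 := para v1 v2 (w l - z) φ u hφ hφ1 (by linarith) hp1 hp2 hdet h.1 h.2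
      exact hball _ (h3.trans hle)
    classical
    obtain ⟨j1, hj1, hmin⟩ : ∃ j, ¬ (|(fdet v1 (w j - z) : ℝ)| ≤ 24 * u * nrm v1 ∧
        |(fdet v2 (w j - z) : ℝ)| ≤ 24 * u * nrm v2) ∧ ∀ i, i < j →
        (|(fdet v1 (w i - z) : ℝ)| ≤ 24 * u * nrm v1 ∧
        |(fdet v2 (w i - z) : ℝ)| ≤ 24 * u * nrm v2) :=
      ⟨Nat.find hex, Nat.find_spec hex, fun i hi => not_not.1 (Nat.find_min hex hi)⟩
    have hj1l : j1 ≤ l := by
      by_contra hlt
      push Not at hlt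
      have h := hmin l hlt
      apply hwl
      have h3 := para v1 v2 (w l - z) φ u hφ hφ1 (by linarith) hp1 hp2 hdet h.1 h.2
      exact hball _ (h3.trans hle)
    have hin0 : ∀ v : Site, |(fdet v (w 0 - z) : ℝ)| ≤ 24 * u * nrm v := by
      intro v
      have h3 := (mem_eb z (w 0) _).1 hw0
      push_cast at h3
      have h4 := mul_le_mul_of_nonneg_left h3 (hL0 v)
      have h5 := fdet_le v (w 0 - z)
      have h6 : 0 ≤ (u : ℝ) * nrm v := mul_nonneg (by linarith) (hL0 v)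
      linarith
    have hj1p : 0 < j1 := by
      rcases Nat.eq_zero_or_pos j1 with h | h
      · subst h
        exact absurd ⟨hin0 v1, hin0 v2⟩ hj1
      · exact h
    have hsm : ∀ j, j < j1 → nrm (w j - z) ≤ 68 * u / φ := fun j hj =>
      para v1 v2 (w j - z) φ u hφ hφ1 (by linarith) hp1 hp2 hdet (hmin j hj).1 (hmin j hj).2
    have hwr : ∀ j, j ≤ j1 → nrm (w j - z) ≤ 69 * u / φ := by
      have h4 : (69 * (u : ℝ)) / φ = 68 * u / φ + u / φ := by ring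
      have h5 : 100 ≤ (u : ℝ) / φ := by
        rw [le_div_iff₀ hφ]
        linarith
      intro j hj
      rcases hj.lt_or_eq with h | h
      · have := hsm j h
        linarith
      · subst h
        obtain ⟨j', rfl⟩ : ∃ j', j = j' + 1 := ⟨j - 1, by omega⟩
        have h6 := hsm j' (by omega)
        have h7 := nrm_sub (w (j' + 1)) (w j') z
        have h8 := tri_nrm (hw j' (by omega))
        linarith
    have hside : ∃ i, 24 * u * nrm (a i) < s i * (fdet (a i) (w j1 - z) : ℝ) := by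
      have hv : ∃ v : Site, (v = v1 ∨ v = v2) ∧ 24 * u * nrm v < |(fdet v (w j1 - z) : ℝ)| := by
        by_contra hcon
        push Not at hcon
        exact hj1 ⟨hcon v1 (Or.inl rfl), hcon v2 (Or.inr rfl)⟩
      obtain ⟨v, hv1, hv2⟩ := hv
      rcases lt_abs.1 hv2 with h | h
      · obtain ⟨i, hi1, hi2⟩ := hcov v 1 hv1 (Or.inl rfl)
        refine ⟨i, ?_⟩
        rw [hi1, hi2, Int.cast_one, one_mul]
        exact h
      · obtain ⟨i, hi1, hi2⟩ := hcov v (-1) hv1 (Or.inr rfl)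
        refine ⟨i, ?_⟩
        rw [hi1, hi2, Int.cast_neg, Int.cast_one, neg_one_mul]
        exact h
    obtain ⟨i, hi⟩ := hside
    obtain ⟨k, x, hxD, hxT, hxn, hx0, hxk⟩ := hD i
    obtain ⟨i', j, hi', hj, he, hout⟩ := one hPAR (a i) z (y i) M u φ hφ hφ1 hM' (hprop i).2.2 hu
      (s i) (has i).2 (hy i) k x hxT hxn hx0 hxk j1 w (fun j hj => hw j (by omega)) hw0 hwr hi
    rw [he] at hout
    refine ⟨j, hj.trans hj1l, ?_, hout⟩
    rcases hxD i' hi' with h | h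
    · rw [← he]
      exact h
    · exfalso
      rw [he] at h
      exact h (hball _ (hwr j hj))

end Pool.Agent.H82.RFT
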